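import Pool.Agent.Lib.Z9f173dC.Low

/-!
# Chambers of three-dimensional complexes

Let `C` have length at most three.  Two `3`-cells of the universal cover are adjacent if they share
a `2`-cell which is met at most twice by the boundaries of the `3`-cells; the classes of the
generated equivalence relation are the chambers.  If the homology vanishes in degrees at most two,
then `2 H^3(G; ℤ[G]) = 0` as soon as every chamber either contains two translates of a `3`-cell
(its image in the quotient is not simply connected in `M`), or has no `2`-cell in common with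
three or more `3`-cells.
-/

namespace Z9f173d

noncomputable section

open scoped Matrix

/-- a relation with exactly two terms -/
theorem two_terms {ι Q : Type*} [AddCommGroup Q] (F : Finset ι) (t : ι → ℤ) (q : ι → Q)
    (ht : ∑ c ∈ F, (t c).natAbs ≤ 2) (h : ∑ c ∈ F, t c • q c = 0) {i j : ι} (hi : i ∈ F)
    (hj : j ∈ F) (hij : i ≠ j) (hti : t i ≠ 0) (htj : t j ≠ 0) : q j = q i ∨ q j = -q i := by
  classical
  have hj' : j ∈ F.erase i := Finset.mem_erase.2 ⟨Ne.symm hij, hj⟩
  have e1 := Finset.add_sum_erase F (fun c => (t c).natAbs) hi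
  have e2 := Finset.add_sum_erase (F.erase i) (fun c => (t c).natAbs) hj'
  have e1' : (t i).natAbs + ∑ c ∈ F.erase i, (t c).natAbs = ∑ c ∈ F, (t c).natAbs := e1
  have e2' : (t j).natAbs + ∑ c ∈ (F.erase i).erase j, (t c).natAbs
      = ∑ c ∈ F.erase i, (t c).natAbs := e2
  have n1 : (t i).natAbs ≠ 0 := by rwa [Ne, Int.natAbs_eq_zero]
  have n2 : (t j).natAbs ≠ 0 := by rwa [Ne, Int.natAbs_eq_zero]
  have r0 : ∑ c ∈ (F.erase i).erase j, (t c).natAbs = 0 := by omega
  have m1 : (t i).natAbs = 1 := by omega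
  have m2 : (t j).natAbs = 1 := by omega
  have r1 : ∑ c ∈ (F.erase i).erase j, t c • q c = 0 := by
    refine Finset.sum_eq_zero fun c hc => ?_
    have := (Finset.sum_eq_zero_iff.1 r0) c hc
    rw [Int.natAbs_eq_zero.1 this, zero_smul]
  rw [← Finset.add_sum_erase F (fun c => t c • q c) hi,
    ← Finset.add_sum_erase (F.erase i) (fun c => t c • q c) hj', r1, add_zero] at h
  rcases Int.natAbs_eq (t i) with h9 | h9 <;> rcases Int.natAbs_eq (t j) with h10 | h10 <;>
    rw [m1] at h9 <;> rw [m2] at h10 <;> rw [h9, h10] at h <;>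
    simp only [Nat.cast_one, one_smul, neg_smul] at h
  · right
    exact (eq_neg_of_add_eq_zero_right h)
  · left
    rw [← sub_eq_add_neg] at h
    exact (sub_eq_zero.1 h).symm
  · left
    rw [neg_add_eq_zero] at h
    exact h.symm
  · right
    rw [← neg_add, neg_eq_zero] at h
    exact eq_neg_of_add_eq_zero_right h

variable {G : Type*} [Group G] (C : FinRes G)

/-- The number of times that the `2`-cell `b` is met by the boundaries of the `3`-cells. -/
def degF (b : Fin (C.rank 2)) : ℕ :=
  ∑ a, ∑ y ∈ (C.d 2 a b).coeff.support, ((C.d 2 a b).coeff y).natAbs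

/-- The incidence number of the translate `c.2 • c.1` of a `3`-cell and of the translate
`f.2 • f.1` of a `2`-cell. -/
def inc3 (c : Fin (C.rank 3) × G) (f : Fin (C.rank 2) × G) : ℤ :=
  (C.d 2 c.1 f.1).coeff (c.2⁻¹ * f.2)

/-- Two translates of `3`-cells are adjacent if they meet in a `2`-cell which is met at most twice
by the boundaries of the `3`-cells. -/
def Adj3 (c c' : Fin (C.rank 3) × G) : Prop :=
  ∃ f, degF C f.1 ≤ 2 ∧ inc3 C c f ≠ 0 ∧ inc3 C c' f ≠ 0

/-- the class of a translate of a `3`-cell -/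
def qc (c : Fin (C.rank 3) × G) : (Fin (C.rank 3) → MonoidAlgebra ℤ G) ⧸ bd3 C :=
  cls C c.1 c.2⁻¹

theorem relation' (f : Fin (C.rank 2) × G) :
    ∑ a, ∑ y ∈ (C.d 2 a f.1).coeff.support,
      (C.d 2 a f.1).coeff y • qc C (a, f.2 * y⁻¹) = 0 := by
  rw [← relation C f.1 f.2⁻¹]
  refine Finset.sum_congr rfl fun a _ => Finset.sum_congr rfl fun y _ => ?_
  rw [qc, mul_inv_rev, inv_inv]

theorem adj_qc {c c' : Fin (C.rank 3) × G} (h : Adj3 C c c') :
    qc C c' = qc C c ∨ qc C c' = -qc C c := by
  classical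
  obtain ⟨f, hd, hc, hc'⟩ := h
  by_cases hcc : c = c'
  · left; rw [hcc]
  have hrel := relation' C f
  rw [Finset.sum_sigma'] at hrel
  have hd' : ∑ p ∈ Finset.univ.sigma (fun a => (C.d 2 a f.1).coeff.support),
      ((C.d 2 p.1 f.1).coeff p.2).natAbs ≤ 2 := by
    rw [Finset.sum_sigma]
    exact hd
  have key := two_terms (Finset.univ.sigma (fun a => (C.d 2 a f.1).coeff.support))
    (fun p => (C.d 2 p.1 f.1).coeff p.2) (fun p => qc C (p.1, f.2 * p.2⁻¹)) hd' hrel
    (i := ⟨c.1, c.2⁻¹ * f.2⟩) (j := ⟨c'.1, c'.2⁻¹ * f.2⟩)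
    (Finset.mem_sigma.2 ⟨Finset.mem_univ _, Finsupp.mem_support_iff.2 hc⟩)
    (Finset.mem_sigma.2 ⟨Finset.mem_univ _, Finsupp.mem_support_iff.2 hc'⟩)
    (fun he => ?_) hc hc'
  · simpa only [mul_inv_rev, inv_inv, mul_inv_cancel_left] using key
  · apply hcc
    rw [Sigma.mk.injEq] at he
    obtain ⟨h1, h2⟩ := he
    have h3 : c.2⁻¹ * f.2 = c'.2⁻¹ * f.2 := by
      simpa using h2
    exact Prod.ext h1 (inv_injective (mul_right_cancel h3))

theorem reach_qc {c c' : Fin (C.rank 3) × G} (h : Relation.ReflTransGen (Adj3 C) c c') :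
    qc C c' = qc C c ∨ qc C c' = -qc C c := by
  induction h with
  | refl => exact Or.inl rfl
  | tail _ h2 ih =>
    rcases adj_qc C h2 with e | e <;> rcases ih with e' | e' <;> rw [e, e']
    · exact Or.inl rfl
    · exact Or.inr rfl
    · exact Or.inr rfl
    · exact Or.inl (neg_neg _)

/-- The chamber of the `3`-cell `a`: it contains another translate of `a`, or all its `2`-cells are
met at most twice by the boundaries of the `3`-cells. -/
def ChamberOK (a : Fin (C.rank 3)) : Prop :=
  (∃ g : G, g ≠ 1 ∧ Relation.ReflTransGen (Adj3 C) (a, 1) (a, g)) ∨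
    ∀ c, Relation.ReflTransGen (Adj3 C) (a, 1) c → ∀ f, inc3 C c f ≠ 0 → degF C f.1 ≤ 2

section Van
variable (h0 : ¬ Nontrivial (C.homology 0)) (h1 : ¬ Nontrivial (C.homology 1))
  (h2 : ¬ Nontrivial (C.homology 2))

include h0 h1 h2

/-- the class of a cell whose chamber is good has order at most two -/
theorem two_cls' (hC : C.rank 4 = 0) (a0 : Fin (C.rank 3)) (hch : ChamberOK C a0) :
    cls C a0 1 + cls C a0 1 = 0 := by
  classical
  by_contra hu'
  have hG : ∀ g : G, IsOfFinOrder g → g = 1 := C.torsion_free 4 hC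
  have hq1 : qc C (a0, 1) = cls C a0 1 := by rw [qc, inv_one]
  set u := qc C (a0, 1) with hud
  have hu : u + u ≠ 0 := by rw [hq1]; exact hu'
  have hu0 : u ≠ 0 := by
    intro h
    exact hu (by rw [h, add_zero])
  have hneg : -u ≠ u := by
    intro h
    apply hu
    nth_rewrite 1 [← h]
    exact neg_add_cancel u
  have huniq : ∀ a g k, Relation.ReflTransGen (Adj3 C) (a0, 1) (a, g) →
      Relation.ReflTransGen (Adj3 C) (a0, 1) (a, k) → g = k := by
    intro a g k hg hk
    have e1 := reach_qc C hg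
    have e2 := reach_qc C hk
    have := cls_unique C h0 h1 h2 hG a k⁻¹ g⁻¹ ?_ ?_
    · exact inv_injective this
    · show qc C (a, g) = qc C (a, k) ∨ qc C (a, g) = -qc C (a, k)
      rcases e1 with h | h <;> rcases e2 with h' | h' <;> rw [h, h']
      · exact Or.inl rfl
      · exact Or.inr (neg_neg u).symm
      · exact Or.inr rfl
      · exact Or.inl rfl
    · show qc C (a, k) ≠ 0
      rcases e2 with h | h
      · rw [h]; exact hu0
      · rw [h]; exact neg_ne_zero.2 hu0
  rcases hch with ⟨g, hg, hr⟩ | hR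
  · exact hg (huniq a0 g 1 hr Relation.ReflTransGen.refl)
  -- the finite chamber is a cycle
  let s : Fin (C.rank 3) × G → ℤ := fun c => if qc C c = u then 1 else -1
  have hs : ∀ c, Relation.ReflTransGen (Adj3 C) (a0, 1) c → qc C c = s c • u := by
    intro c hc
    show qc C c = (if qc C c = u then (1 : ℤ) else -1) • u
    by_cases e : qc C c = u
    · rw [if_pos e, one_smul, e]
    · rw [if_neg e, neg_smul, one_smul]
      exact (reach_qc C hc).resolve_left e
  have hs1 : ∀ c, (s c).natAbs = 1 := by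
    intro c
    show (if qc C c = u then (1 : ℤ) else -1).natAbs = 1
    split_ifs <;> rfl
  let v : Fin (C.rank 3) → MonoidAlgebra ℤ G := fun a =>
    if h : ∃ g, Relation.ReflTransGen (Adj3 C) (a0, 1) (a, g) then
      MonoidAlgebra.single h.choose (s (a, h.choose)) else 0
  have hv : v ᵥ* C.d 2 = 0 := by
    ext b k
    show ((∑ a, v a * C.d 2 a b : MonoidAlgebra ℤ G)).coeff k = 0
    rw [MonoidAlgebra.coeff_sum, Finsupp.finsetSum_apply]
    -- the terms
    have hterm : ∀ a, ((v a * C.d 2 a b : MonoidAlgebra ℤ G)).coeff k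
        = if h : ∃ g, Relation.ReflTransGen (Adj3 C) (a0, 1) (a, g) then
            s (a, h.choose) * inc3 C (a, h.choose) (b, k) else 0 := by
      intro a
      by_cases hx : ∃ g, Relation.ReflTransGen (Adj3 C) (a0, 1) (a, g)
      · have e1 : v a = MonoidAlgebra.single hx.choose (s (a, hx.choose)) := dif_pos hx
        rw [e1, MonoidAlgebra.coeff_single_mul_apply, dif_pos hx]
        rfl
      · have e1 : v a = 0 := dif_neg hx
        rw [e1, zero_mul, dif_neg hx]
        rfl
    rw [Finset.sum_congr rfl fun a _ => hterm a]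
    by_cases hall : ∀ a, ∀ g, Relation.ReflTransGen (Adj3 C) (a0, 1) (a, g) →
        inc3 C (a, g) (b, k) = 0
    · refine Finset.sum_eq_zero fun a _ => ?_
      by_cases hx : ∃ g, Relation.ReflTransGen (Adj3 C) (a0, 1) (a, g)
      · rw [dif_pos hx, hall a _ hx.choose_spec, mul_zero]
      · rw [dif_neg hx]
    push Not at hall
    obtain ⟨a1, g1, hr1, hi1⟩ := hall
    have hdeg : degF C b ≤ 2 := hR _ hr1 (b, k) hi1
    have hin : ∀ a g, inc3 C (a, g) (b, k) ≠ 0 →
        Relation.ReflTransGen (Adj3 C) (a0, 1) (a, g) := fun a g hi =>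
      hr1.tail ⟨(b, k), hdeg, hi1, hi⟩
    have hrel := relation' C (b, k)
    -- the relation is `S • u = 0`
    have hterm2 : ∀ a, ∑ y ∈ (C.d 2 a b).coeff.support,
        (C.d 2 a b).coeff y • qc C (a, k * y⁻¹)
        = (if h : ∃ g, Relation.ReflTransGen (Adj3 C) (a0, 1) (a, g) then
            s (a, h.choose) * inc3 C (a, h.choose) (b, k) else 0) • u := by
      intro a
      have hy : ∀ y ∈ (C.d 2 a b).coeff.support,
          Relation.ReflTransGen (Adj3 C) (a0, 1) (a, k * y⁻¹) := by
        intro y hy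
        apply hin
        show (C.d 2 a b).coeff ((k * y⁻¹)⁻¹ * k) ≠ 0
        rw [mul_inv_rev, inv_inv, inv_mul_cancel_right]
        exact Finsupp.mem_support_iff.1 hy
      by_cases hx : ∃ g, Relation.ReflTransGen (Adj3 C) (a0, 1) (a, g)
      · rw [dif_pos hx]
        set g := hx.choose with hgd
        have hg : Relation.ReflTransGen (Adj3 C) (a0, 1) (a, g) := hx.choose_spec
        have hyg : ∀ y ∈ (C.d 2 a b).coeff.support, y = g⁻¹ * k := by
          intro y hy'
          have := huniq a _ _ (hy y hy') hg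
          rw [← this, mul_inv_rev, inv_inv, inv_mul_cancel_right]
        by_cases hm : g⁻¹ * k ∈ (C.d 2 a b).coeff.support
        · rw [Finset.sum_eq_single_of_mem _ hm]
          · rw [mul_inv_rev, inv_inv, mul_inv_cancel_left, hs _ hg, smul_smul, mul_comm]
            rfl
          · intro y hy' hne
            exact absurd (hyg y hy') hne
        · have e3 : inc3 C (a, g) (b, k) = 0 := Finsupp.notMem_support_iff.1 hm
          rw [e3, mul_zero, zero_zsmul]
          refine Finset.sum_eq_zero fun y hy' => ?_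
          exact absurd (hyg y hy' ▸ hy') hm
      · rw [dif_neg hx, zero_zsmul]
        refine Finset.sum_eq_zero fun y hy' => ?_
        exact absurd ⟨_, hy y hy'⟩ hx
    rw [Finset.sum_congr rfl fun a _ => hterm2 a, ← Finset.sum_smul] at hrel
    set S := ∑ a, (if h : ∃ g, Relation.ReflTransGen (Adj3 C) (a0, 1) (a, g) then
            s (a, h.choose) * inc3 C (a, h.choose) (b, k) else 0) with hSd
    have hSle : S.natAbs ≤ 2 := by
      refine le_trans ?_ hdeg
      rw [hSd, degF]
      refine (Int.natAbs_sum_le _ _).trans (Finset.sum_le_sum fun a _ => ?_)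
      by_cases hx : ∃ g, Relation.ReflTransGen (Adj3 C) (a0, 1) (a, g)
      · rw [dif_pos hx, Int.natAbs_mul, hs1, one_mul]
        by_cases hm : hx.choose⁻¹ * k ∈ (C.d 2 a b).coeff.support
        · exact Finset.single_le_sum (f := fun y => ((C.d 2 a b).coeff y).natAbs)
            (fun _ _ => Nat.zero_le _) hm
        · have e3 : inc3 C (a, hx.choose) (b, k) = 0 := Finsupp.notMem_support_iff.1 hm
          rw [e3]
          exact Nat.zero_le _
      · rw [dif_neg hx]
        exact Nat.zero_le _
    have h4 : S.natAbs = 0 ∨ S.natAbs = 1 ∨ S.natAbs = 2 := by omega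
    rcases h4 with h4 | h4 | h4
    · exact Int.natAbs_eq_zero.1 h4
    · exfalso
      rcases Int.natAbs_eq S with h5 | h5 <;> rw [h4] at h5 <;> rw [h5] at hrel <;>
        simp only [Nat.cast_one, one_smul, neg_smul, neg_eq_zero] at hrel <;> exact hu0 hrel
    · exfalso
      rcases Int.natAbs_eq S with h5 | h5 <;> rw [h4] at h5 <;> rw [h5] at hrel
      · apply hu
        rw [← two_zsmul]
        exact hrel
      · apply hu
        rw [neg_smul, neg_eq_zero] at hrel
        rw [← two_zsmul]
        exact hrel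
  obtain ⟨w, hw⟩ := (C.exact_succ 2 v).1 hv
  have hv0 : v = 0 := by
    rw [← hw]
    have : w = 0 := by
      ext1 j
      exact Fin.elim0 (Fin.cast hC j)
    rw [this, Matrix.zero_vecMul]
  have hx : ∃ g, Relation.ReflTransGen (Adj3 C) (a0, 1) (a0, g) :=
    ⟨1, Relation.ReflTransGen.refl⟩
  have e1 : v a0 = MonoidAlgebra.single hx.choose (s (a0, hx.choose)) := dif_pos hx
  rw [hv0] at e1
  have e2 := MonoidAlgebra.single_eq_zero.1 e1.symm
  have e3 := hs1 (a0, hx.choose)
  rw [e2] at e3
  exact absurd e3 (by norm_num)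

/-- **Three-dimensional complexes without simply connected chambers** -/
theorem chamber_false (hC : C.rank 4 = 0) (hch : ∀ a, ChamberOK C a) : False := by
  refine dim_three C h0 h1 h2 2 two_ne_zero fun a => ?_
  have h3 : cellE C a 1 + cellE C a 1 ∈ bd3 C := by
    rw [← QuotientAddGroup.eq_zero_iff, QuotientAddGroup.mk_add]
    exact two_cls' C h0 h1 h2 hC a (hch a)
  obtain ⟨b, hb⟩ := (mem_bd3 C _).1 h3
  refine ⟨b, ?_⟩
  rw [hb, cellE, ← Pi.single_add, ← MonoidAlgebra.single_add, one_add_one_eq_two]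

end Van

/-- Low dimensions, with chambers in dimension three -/
theorem low_dim' (h : ((∀ i, 3 < i → C.rank i = 0) ∧
        ((∀ c : C.cohomology G 3, IsOfFinAddOrder c) ∨ ∀ a, ChamberOK C a)) ∨
      (∃ (g : G) (z : Fin (C.rank 3) → MonoidAlgebra ℤ G), ¬ IsOfFinOrder g ∧
          C.cobd G 3 z = 0 ∧ z ∉ C.coboundaries G 3 ∧
          (fun a => z a * MonoidAlgebra.single g 1 - z a) ∈ C.coboundaries G 3) ∨
      (∃ Λ : Subgroup G, FoelnerAmenable Λ ∧ ∃ j ≤ 2, Nontrivial (C.cohomology (G ⧸ Λ) j))) :
    ∃ i ≤ 2, Nontrivial (C.homology i) := by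
  rcases h with ⟨hC, h | h⟩ | h | h
  · exact low_dim C (Or.inl ⟨hC, Or.inl h⟩)
  · by_contra hcon
    simp only [not_exists, not_and] at hcon
    exact chamber_false C (hcon 0 (by norm_num)) (hcon 1 (by norm_num)) (hcon 2 le_rfl)
      (hC 4 (by norm_num)) h
  · exact low_dim C (Or.inr (Or.inl h))
  · exact low_dim C (Or.inr (Or.inr h))

/-- if no `2`-cell is met more than twice then all chambers are good -/
theorem chamberOK_of_deg (hdeg : ∀ b, degF C b ≤ 2) (a : Fin (C.rank 3)) : ChamberOK C a :=
  Or.inr fun _ _ f _ => hdeg f.1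

end

end Z9f173d
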