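import Pool.Agent.Lib.Z9f173d.Final2
import Pool.Agent.Lib.Z9f173d.Tf

/-!
# Resolutions of length three

If the homology of `C` with coefficients in the reduced `C*`-algebra vanishes in degrees at most two
and `C` has length at most three, then `H^3(G; ℤ[G])` is not a torsion group (`dim_three`).
-/

namespace Z9f173d

noncomputable section

open scoped Matrix

variable {G : Type*} [Group G]

/-- `H^2(G; ℤ[G]) = 0` -/
theorem two_exact (C : FinRes G)
    (h0 : ¬ Nontrivial (C.homology 0)) (h1 : ¬ Nontrivial (C.homology 1))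
    (h2 : ¬ Nontrivial (C.homology 2)) (f : Fin (C.rank 2) → MonoidAlgebra ℤ G)
    (hf : C.d 2 *ᵥ f = 0) : ∃ c, C.d 1 *ᵥ c = f := by
  obtain ⟨c, hc, hcf⟩ := deg2 ⊥ foelner_bot C h0 h1 h2 (fun b => P0 (f b)) (fun b => P0_IL _)
    (by rw [← P0_mulVec, hf]; ext1 a; simp)
  choose c' hc' using fun b => IL_P0 (hc b)
  refine ⟨c', ?_⟩
  ext1 a
  apply P0_injective
  have h3 := congrFun (P0_mulVec C 1 c') a
  simp only [hc'] at h3
  rw [h3]
  exact congrFun hcf a

/-- `H^1(G; ℤ[G]) = 0` -/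
theorem one_exact (C : FinRes G)
    (h0 : ¬ Nontrivial (C.homology 0)) (h1 : ¬ Nontrivial (C.homology 1))
    (h2 : ¬ Nontrivial (C.homology 2)) (f : Fin (C.rank 1) → MonoidAlgebra ℤ G)
    (hf : C.d 1 *ᵥ f = 0) : ∃ c, C.d 0 *ᵥ c = f := by
  obtain ⟨c, hc, hcf⟩ := deg1 ⊥ foelner_bot C h0 h1 h2 (fun b => P0 (f b)) (fun b => P0_IL _)
    (by rw [← P0_mulVec, hf]; ext1 a; simp)
  choose c' hc' using fun b => IL_P0 (hc b)
  refine ⟨c', ?_⟩
  ext1 a
  apply P0_injective
  have h3 := congrFun (P0_mulVec C 0 c') a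
  simp only [hc'] at h3
  rw [h3]
  exact congrFun hcf a

/-- `H^0(G; ℤ[G]) = 0` -/
theorem zero_exact (C : FinRes G)
    (h0 : ¬ Nontrivial (C.homology 0)) (h1 : ¬ Nontrivial (C.homology 1))
    (h2 : ¬ Nontrivial (C.homology 2)) (f : Fin (C.rank 0) → MonoidAlgebra ℤ G)
    (hf : C.d 0 *ᵥ f = 0) : f = 0 := by
  have := deg0 ⊥ foelner_bot C h0 h1 h2 (fun b => P0 (f b)) (fun b => P0_IL _)
    (by rw [← P0_mulVec, hf]; ext1 a; simp)
  ext1 b
  apply P0_injective
  have h3 := congrFun this b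
  rw [h3]
  simp

/-- solving a matrix equation column by column -/
theorem solve_cols {l m n : ℕ} (D : Matrix (Fin m) (Fin n) (MonoidAlgebra ℤ G))
    (M : Matrix (Fin m) (Fin l) (MonoidAlgebra ℤ G))
    (h : ∀ b, ∃ t, D *ᵥ t = fun a => M a b) :
    ∃ T : Matrix (Fin n) (Fin l) (MonoidAlgebra ℤ G), D * T = M := by
  choose t ht using h
  refine ⟨Matrix.of fun a b => t b a, ?_⟩
  ext1 a b
  exact congrFun (ht b) a

/-- If the third differential has a right inverse up to a non-zero integer, the homology does not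
vanish. -/
theorem dim_three (C : FinRes G)
    (h0 : ¬ Nontrivial (C.homology 0)) (h1 : ¬ Nontrivial (C.homology 1))
    (h2 : ¬ Nontrivial (C.homology 2)) (n : ℤ) (hn : n ≠ 0)
    (h : ∀ a : Fin (C.rank 3), ∃ b, C.d 2 *ᵥ b = Pi.single a (MonoidAlgebra.single 1 n)) :
    False := by
  have hs : ∀ (m : ℕ) (a b : Fin m), (n • (1 : Matrix (Fin m) (Fin m) (MonoidAlgebra ℤ G))) a b
      = (Pi.single b (MonoidAlgebra.single 1 n) : Fin m → MonoidAlgebra ℤ G) a := by
    intro m a b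
    rw [Matrix.smul_apply, Matrix.one_apply, Pi.single_apply]
    split_ifs
    · rw [MonoidAlgebra.one_def, MonoidAlgebra.smul_single]
      simp
    · simp
  obtain ⟨T3, hT3⟩ := solve_cols (C.d 2) (n • 1) fun b => by
    obtain ⟨t, ht⟩ := h b
    exact ⟨t, by rw [ht]; ext1 a; rw [hs]⟩
  obtain ⟨T2, hT2⟩ := solve_cols (C.d 1) (n • 1 - T3 * C.d 2) fun b =>
    two_exact C h0 h1 h2 _ (by
      have h3 : C.d 2 * (n • 1 - T3 * C.d 2) = 0 := by
        rw [Matrix.mul_sub, Matrix.mul_smul, Matrix.mul_one, ← Matrix.mul_assoc, hT3,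
          Matrix.smul_mul, Matrix.one_mul, sub_self]
      ext1 a
      exact congrFun (congrFun h3 a) b)
  obtain ⟨T1, hT1⟩ := solve_cols (C.d 0) (n • 1 - T2 * C.d 1) fun b =>
    one_exact C h0 h1 h2 _ (by
      have h3 : C.d 1 * (n • 1 - T2 * C.d 1) = 0 := by
        rw [Matrix.mul_sub, Matrix.mul_smul, Matrix.mul_one, ← Matrix.mul_assoc, hT2,
          Matrix.sub_mul, Matrix.smul_mul, Matrix.one_mul, Matrix.mul_assoc, C.d_mul_d,
          Matrix.mul_zero, sub_zero, sub_self]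
      ext1 a
      exact congrFun (congrFun h3 a) b)
  have m0 : T1 * C.d 0 = n • 1 := by
    have h3 : C.d 0 * (n • 1 - T1 * C.d 0) = 0 := by
      rw [Matrix.mul_sub, Matrix.mul_smul, Matrix.mul_one, ← Matrix.mul_assoc, hT1,
        Matrix.sub_mul, Matrix.smul_mul, Matrix.one_mul, Matrix.mul_assoc, C.d_mul_d,
        Matrix.mul_zero, sub_zero, sub_self]
    have h4 : n • 1 - T1 * C.d 0 = 0 := by
      ext1 a b
      have := zero_exact C h0 h1 h2 (fun a => (n • 1 - T1 * C.d 0 : Matrix (Fin (C.rank 0))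
        (Fin (C.rank 0)) (MonoidAlgebra ℤ G)) a b) (by
        ext1 a
        exact congrFun (congrFun h3 a) b)
      exact congrFun this a
    exact (sub_eq_zero.1 h4).symm
  obtain ⟨x, hx⟩ := C.exists_x
  have h5 : C.augMap (n • x) = 0 := by
    rw [C.augMap_eq_zero_iff]
    refine ⟨x ᵥ* T1, ?_⟩
    rw [Matrix.vecMul_vecMul, m0, Matrix.vecMul_smul, Matrix.vecMul_one]
  rw [map_zsmul, hx, smul_eq_mul, mul_one] at h5
  exact hn h5

end

end Z9f173d
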