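import Pool.Agent.Lib.Z9f173dC.Sheet

/-!
# Zero in the spectrum in low dimensions: the final statement
-/

namespace Z9f173d

theorem low_dim {G : Type*} [Group G] (C : FinRes G)
    (h : ((∀ i, 3 < i → C.rank i = 0) ∧ ((∀ c : C.cohomology G 3, IsOfFinAddOrder c) ∨
          ∀ b, ∑ a, ∑ x ∈ (C.d 2 a b).coeff.support, ((C.d 2 a b).coeff x).natAbs ≤ 2)) ∨
      (∃ (g : G) (z : Fin (C.rank 3) → MonoidAlgebra ℤ G), ¬ IsOfFinOrder g ∧
          C.cobd G 3 z = 0 ∧ z ∉ C.coboundaries G 3 ∧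
          (fun a => z a * MonoidAlgebra.single g 1 - z a) ∈ C.coboundaries G 3) ∨
      (∃ Λ : Subgroup G, FoelnerAmenable Λ ∧ ∃ j ≤ 2, Nontrivial (C.cohomology (G ⧸ Λ) j))) :
    ∃ i ≤ 2, Nontrivial (C.homology i) := by
  by_contra hcon
  simp only [not_exists, not_and] at hcon
  have h0 := hcon 0 (by norm_num)
  have h1 := hcon 1 (by norm_num)
  have h2 := hcon 2 le_rfl
  rcases h with ⟨hC, h | h⟩ | ⟨g, z, hg, _, hz, hgz⟩ | h
  · -- `H^3` torsion
    have hC4 : C.rank 4 = 0 := hC 4 (by norm_num)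
    have hcoc : ∀ z, C.cobd G 3 z = 0 := by
      intro z
      ext1 i
      exact Fin.elim0 (Fin.cast hC4 i)
    have hfin : ∀ a : Fin (C.rank 3), ∃ n : ℕ, n ≠ 0 ∧ n • cellE C a 1 ∈ bd3 C := by
      intro a
      obtain ⟨n, hn, hn'⟩ := isOfFinAddOrder_iff_nsmul_eq_zero.1
        (h (QuotientAddGroup.mk ⟨cellE C a 1, (hcoc _ : _)⟩))
      refine ⟨n, hn.ne', ?_⟩
      rw [← QuotientAddGroup.mk_nsmul, QuotientAddGroup.eq_zero_iff] at hn'
      exact hn'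
    choose n hn hn' using hfin
    refine dim_three C h0 h1 h2 ((∏ a, n a : ℕ) : ℤ) ?_ fun a => ?_
    · exact_mod_cast Finset.prod_ne_zero_iff.2 fun a _ => hn a
    · obtain ⟨m, hm⟩ := Finset.dvd_prod_of_mem n (Finset.mem_univ a)
      obtain ⟨b, hb⟩ := (mem_bd3 C _).1 ((bd3 C).nsmul_mem (hn' a) m)
      refine ⟨b, ?_⟩
      rw [hb, ← mul_nsmul', mul_comm m (n a), ← hm, cellE, ← Pi.single_smul]
      congr 1
      rw [MonoidAlgebra.smul_single]
      simp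
  · exact pseudo_false C h0 h1 h2 (hC 4 (by norm_num)) h
  · exact hz (fixed_mem C h0 h1 h2 hg z hgz)
  · obtain ⟨i, hi, hi'⟩ := final C (Or.inr (Or.inl h))
    exact hcon i hi hi'

end Z9f173d
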