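import Pool.Agent.Lib.Z9f173dC.Dim3

/-!
# Two-cells of degree at most two

If `C` has length three and every `2`-cell lies in at most two `3`-cells, then
`2 H^3(G; ℤ[G]) = 0` as soon as the homology vanishes in degrees at most two.
-/

namespace Z9f173d

noncomputable section

open scoped Matrix

/-- an integral sum with at most two terms -/
theorem comb {ι Q : Type*} [AddCommGroup Q] (F : Finset ι) (t s : ι → ℤ) (q : ι → Q) (u : Q)
    (hu : u + u ≠ 0)
    (hs : ∀ c, s c = 0 ∨ (s c = 1 ∧ q c = u) ∨ (s c = -1 ∧ q c = -u))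
    (hs' : ∀ c, (q c = u ∨ q c = -u) → s c ≠ 0)
    (ht : ∑ c ∈ F, (t c).natAbs ≤ 2) (h : ∑ c ∈ F, t c • q c = 0) :
    ∑ c ∈ F, t c * s c = 0 := by
  classical
  have hu0 : u ≠ 0 := by
    rintro rfl
    exact hu (add_zero 0)
  set I := F.filter fun c => s c ≠ 0 with hI
  set J := F.filter fun c => ¬ s c ≠ 0 with hJ
  have hIJ : ∑ c ∈ I, (t c).natAbs + ∑ c ∈ J, (t c).natAbs ≤ 2 := by
    rw [Finset.sum_filter_add_sum_filter_not]
    exact ht
  have hq : ∑ c ∈ I, t c • q c + ∑ c ∈ J, t c • q c = 0 := by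
    rw [Finset.sum_filter_add_sum_filter_not]
    exact h
  have hS : ∑ c ∈ F, t c * s c = ∑ c ∈ I, t c * s c := by
    rw [← Finset.sum_filter_add_sum_filter_not F (fun c => s c ≠ 0) (fun c => t c * s c)]
    rw [Finset.sum_eq_zero (s := F.filter fun c => ¬ s c ≠ 0), add_zero]
    intro c hc
    have h1 := (Finset.mem_filter.1 hc).2
    rw [not_not] at h1
    rw [h1, mul_zero]
  rw [hS]
  set S := ∑ c ∈ I, t c * s c with hSd
  have hqI : ∑ c ∈ I, t c • q c = S • u := by
    rw [hSd, Finset.sum_smul]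
    refine Finset.sum_congr rfl fun c hc => ?_
    rcases hs c with h1 | ⟨h1, h2⟩ | ⟨h1, h2⟩
    · exact absurd h1 (Finset.mem_filter.1 hc).2
    · rw [h1, h2, mul_one]
    · rw [h1, h2, mul_neg_one, smul_neg, neg_smul]
  rw [hqI] at hq
  have hSn : S.natAbs ≤ ∑ c ∈ I, (t c).natAbs := by
    refine (Int.natAbs_sum_le _ _).trans (Finset.sum_le_sum fun c _ => ?_)
    rw [Int.natAbs_mul]
    rcases hs c with h1 | ⟨h1, _⟩ | ⟨h1, _⟩ <;> rw [h1] <;> simp
  have hJ0 : ∑ c ∈ J, (t c).natAbs = 0 → ∑ c ∈ J, t c • q c = 0 := by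
    intro h1
    refine Finset.sum_eq_zero fun c hc => ?_
    have h2 := (Finset.sum_eq_zero_iff.1 h1) c hc
    rw [Int.natAbs_eq_zero.1 h2, zero_smul]
  rcases Nat.lt_or_ge 0 (∑ c ∈ J, (t c).natAbs) with hJp | hJz
  · -- some term of `J`
    obtain ⟨c2, hc2, ht2⟩ : ∃ c ∈ J, (t c).natAbs ≠ 0 := by
      by_contra hcon
      push Not at hcon
      rw [Finset.sum_eq_zero hcon] at hJp
      exact lt_irrefl _ hJp
    rcases Nat.lt_or_ge 0 S.natAbs with hSp | hSz
    · -- then `S = ± 1`
      have hSJ : S.natAbs + ∑ c ∈ J, (t c).natAbs ≤ 2 := le_trans (by omega) hIJ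
      have h3 := Finset.add_sum_erase J (fun c => (t c).natAbs) hc2
      have h4 : ∑ c ∈ J.erase c2, (t c).natAbs = 0 := by
        have : (t c2).natAbs + ∑ c ∈ J.erase c2, (t c).natAbs = ∑ c ∈ J, (t c).natAbs := h3
        omega
      have h5 : (t c2).natAbs = 1 := by
        have : (t c2).natAbs + ∑ c ∈ J.erase c2, (t c).natAbs = ∑ c ∈ J, (t c).natAbs := h3
        omega
      have h6 : S.natAbs = 1 := by
        have : (t c2).natAbs + ∑ c ∈ J.erase c2, (t c).natAbs = ∑ c ∈ J, (t c).natAbs := h3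
        omega
      have h7 : ∑ c ∈ J, t c • q c = t c2 • q c2 := by
        rw [← Finset.add_sum_erase J (fun c => t c • q c) hc2]
        rw [Finset.sum_eq_zero, add_zero]
        intro c hc
        have h2 := (Finset.sum_eq_zero_iff.1 h4) c hc
        rw [Int.natAbs_eq_zero.1 h2, zero_smul]
      rw [h7] at hq
      have h8 : ¬ s c2 ≠ 0 := (Finset.mem_filter.1 hc2).2
      exfalso
      apply h8
      apply hs'
      rcases Int.natAbs_eq (t c2) with h9 | h9 <;> rcases Int.natAbs_eq S with h10 | h10 <;>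
        rw [h5] at h9 <;> rw [h6] at h10 <;> rw [h9, h10] at hq <;>
        simp only [Nat.cast_one, one_smul, neg_smul] at hq
      · right; rwa [add_comm, ← eq_neg_iff_add_eq_zero] at hq
      · left; rw [add_comm, ← sub_eq_add_neg] at hq; exact sub_eq_zero.1 hq
      · left; rw [← sub_eq_add_neg] at hq; exact (sub_eq_zero.1 hq).symm
      · right
        have : q c2 + u = 0 := by
          have h11 : -(q c2 + u) = 0 := by rw [neg_add]; rw [add_comm]; exact hq
          exact neg_eq_zero.1 h11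
        exact eq_neg_of_add_eq_zero_left this
    · exact Int.natAbs_eq_zero.1 (Nat.le_zero.1 hSz)
  · rw [hJ0 (Nat.le_zero.1 hJz), add_zero] at hq
    have h3 : S.natAbs ≤ 2 := le_trans hSn (by omega)
    have h4 : S.natAbs = 0 ∨ S.natAbs = 1 ∨ S.natAbs = 2 := by omega
    rcases h4 with h4 | h4 | h4
    · exact Int.natAbs_eq_zero.1 h4
    · exfalso
      rcases Int.natAbs_eq S with h5 | h5 <;> rw [h4] at h5 <;> rw [h5] at hq <;>
        simp only [Nat.cast_one, one_smul, neg_smul, neg_eq_zero] at hq <;> exact hu0 hq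
    · exfalso
      rcases Int.natAbs_eq S with h5 | h5 <;> rw [h4] at h5 <;> rw [h5] at hq
      · apply hu
        rw [← two_zsmul]
        exact hq
      · apply hu
        rw [neg_smul, neg_eq_zero] at hq
        rw [← two_zsmul]
        exact hq

variable {G : Type*} [Group G]

section Cell
variable (C : FinRes G)

/-- the cochain of a translate of a `3`-cell -/
def cellE (a : Fin (C.rank 3)) (x : G) : Fin (C.rank 3) → MonoidAlgebra ℤ G :=
  Pi.single a (MonoidAlgebra.single x 1)

/-- the coboundaries in degree three -/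
def bd3 : AddSubgroup (Fin (C.rank 3) → MonoidAlgebra ℤ G) := (C.cobd G 2).range

theorem mem_bd3 (z : Fin (C.rank 3) → MonoidAlgebra ℤ G) :
    z ∈ bd3 C ↔ ∃ b, C.d 2 *ᵥ b = z := by
  constructor
  · rintro ⟨b, rfl⟩
    exact ⟨b, (cobd_self C 2 b).symm⟩
  · rintro ⟨b, rfl⟩
    exact ⟨b, cobd_self C 2 b⟩

theorem rm_bd3 (x : MonoidAlgebra ℤ G) {z : Fin (C.rank 3) → MonoidAlgebra ℤ G}
    (hz : z ∈ bd3 C) : rm x z ∈ bd3 C := by
  rw [mem_bd3] at hz ⊢
  obtain ⟨b, rfl⟩ := hz
  exact ⟨rm x b, rm_mulVec _ _ _⟩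

/-- the class of the cochain of a translate of a `3`-cell -/
def cls (a : Fin (C.rank 3)) (x : G) : (Fin (C.rank 3) → MonoidAlgebra ℤ G) ⧸ bd3 C :=
  QuotientAddGroup.mk (cellE C a x)

theorem cls_eq_zero (a : Fin (C.rank 3)) (x : G) : cls C a x = 0 ↔ cellE C a x ∈ bd3 C :=
  QuotientAddGroup.eq_zero_iff _

theorem rm_cellE (a : Fin (C.rank 3)) (x k : G) :
    rm (MonoidAlgebra.single k 1) (cellE C a x) = cellE C a (x * k) := by
  ext1 i
  rw [rm_apply, cellE, cellE, Pi.single_apply, Pi.single_apply]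
  split_ifs
  · rw [MonoidAlgebra.single_mul_single, mul_one]
  · rw [zero_mul]

/-- the relation given by a `2`-cell -/
theorem relation (b : Fin (C.rank 2)) (h : G) :
    ∑ a, ∑ y ∈ (C.d 2 a b).coeff.support, (C.d 2 a b).coeff y • cls C a (y * h) = 0 := by
  have h1 : (C.d 2 *ᵥ (Pi.single b (MonoidAlgebra.single h 1) : Fin (C.rank 2) → _))
      = ∑ a, ∑ y ∈ (C.d 2 a b).coeff.support, (C.d 2 a b).coeff y • cellE C a (y * h) := by
    ext1 i
    rw [Matrix.mulVec_single, Finset.sum_apply]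
    rw [Finset.sum_eq_single i]
    · rw [Finset.sum_apply]
      show C.d 2 i b * MonoidAlgebra.single h 1 = _
      conv_lhs => rw [← MonoidAlgebra.sum_coeff_single (C.d 2 i b)]
      rw [Finsupp.sum, Finset.sum_mul]
      refine Finset.sum_congr rfl fun y _ => ?_
      rw [Pi.smul_apply, cellE, Pi.single_eq_same, MonoidAlgebra.single_mul_single,
        MonoidAlgebra.smul_single, smul_eq_mul]
    · intro a _ ha
      rw [Finset.sum_apply]
      refine Finset.sum_eq_zero fun y _ => ?_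
      rw [Pi.smul_apply, cellE, Pi.single_eq_of_ne (Ne.symm ha), smul_zero]
    · intro hi
      exact absurd (Finset.mem_univ _) hi
  have h2 : (QuotientAddGroup.mk (C.d 2 *ᵥ (Pi.single b (MonoidAlgebra.single h 1) :
      Fin (C.rank 2) → _)) : (Fin (C.rank 3) → MonoidAlgebra ℤ G) ⧸ bd3 C) = 0 :=
    (QuotientAddGroup.eq_zero_iff _).2 ((mem_bd3 C _).2 ⟨_, rfl⟩)
  rw [h1] at h2
  rw [← h2]
  show _ = QuotientAddGroup.mk' (bd3 C) _
  rw [map_sum]
  refine Finset.sum_congr rfl fun a _ => ?_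
  rw [map_sum]
  refine Finset.sum_congr rfl fun y _ => ?_
  rw [map_zsmul]
  rfl

end Cell

section Van
variable (C : FinRes G)
  (h0 : ¬ Nontrivial (C.homology 0)) (h1 : ¬ Nontrivial (C.homology 1))
  (h2 : ¬ Nontrivial (C.homology 2))

include h0 h1 h2

/-- a class of `H^3(G; ℤ[G])` fixed by an element of infinite order vanishes -/
theorem fixed_mem {k : G} (hk : ¬ IsOfFinOrder k) (z : Fin (C.rank 3) → MonoidAlgebra ℤ G)
    (hz : rm (MonoidAlgebra.single k 1) z - z ∈ bd3 C) : z ∈ bd3 C := by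
  rw [mem_bd3] at hz ⊢
  obtain ⟨b, hb⟩ := hz
  refine fixed_trivial C h0 h1 h2 hk z b ?_
  rw [hb]
  ext1 i
  show z i * _ - z i = z i * _
  rw [km, mul_sub, mul_one]

theorem cls_unique (hG : ∀ g : G, IsOfFinOrder g → g = 1) (a : Fin (C.rank 3)) (x y : G)
    (hxy : cls C a y = cls C a x ∨ cls C a y = -cls C a x) (hx : cls C a x ≠ 0) : y = x := by
  by_contra hne
  set k := x⁻¹ * y with hk
  have hk1 : k ≠ 1 := fun h => hne (inv_mul_eq_one.1 h).symm
  have hkinf : ¬ IsOfFinOrder k := fun h => hk1 (hG k h)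
  have hkk : ¬ IsOfFinOrder (k * k) := not_isOfFinOrder_sq hkinf
  have hxk : x * k = y := by rw [hk, mul_inv_cancel_left]
  apply hx
  rw [cls_eq_zero]
  refine fixed_mem C h0 h1 h2 hkk _ ?_
  have e1 : rm (MonoidAlgebra.single (k * k) 1) (cellE C a x)
      = rm (MonoidAlgebra.single k 1) (cellE C a y) := by
    rw [rm_cellE, rm_cellE, ← mul_assoc, hxk]
  rw [e1]
  rcases hxy with h | h
  · have h3 : cellE C a y - cellE C a x ∈ bd3 C := by
      rw [← QuotientAddGroup.eq_zero_iff, QuotientAddGroup.mk_sub]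
      exact sub_eq_zero.2 h
    have h4 := rm_bd3 C (MonoidAlgebra.single k 1) h3
    rw [map_sub, rm_cellE C a x, hxk] at h4
    have h5 := (bd3 C).add_mem h4 h3
    rwa [sub_add_sub_cancel] at h5
  · have h3 : cellE C a y + cellE C a x ∈ bd3 C := by
      rw [← QuotientAddGroup.eq_zero_iff, QuotientAddGroup.mk_add]
      show cls C a y + cls C a x = 0
      rw [h, neg_add_cancel]
    have h4 := rm_bd3 C (MonoidAlgebra.single k 1) h3
    rw [map_add, rm_cellE C a x, hxk] at h4
    have h5 := (bd3 C).sub_mem h4 h3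
    rwa [add_comm (cellE C a y) (cellE C a x), add_sub_add_right_eq_sub] at h5

/-- the classes of the cells have order at most two -/
theorem two_cls (hC : C.rank 4 = 0)
    (hdeg : ∀ b, ∑ a, ∑ y ∈ (C.d 2 a b).coeff.support, ((C.d 2 a b).coeff y).natAbs ≤ 2)
    (a0 : Fin (C.rank 3)) : cls C a0 1 + cls C a0 1 = 0 := by
  classical
  by_contra hu
  have hG : ∀ g : G, IsOfFinOrder g → g = 1 := C.torsion_free 4 hC
  set u := cls C a0 1 with hud
  have hu0 : u ≠ 0 := by
    intro h
    exact hu (by rw [h, add_zero])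
  let s : Fin (C.rank 3) → G → ℤ := fun a x =>
    if cls C a x = u then 1 else if cls C a x = -u then -1 else 0
  have hs : ∀ a x, s a x = 0 ∨ (s a x = 1 ∧ cls C a x = u) ∨ (s a x = -1 ∧ cls C a x = -u) := by
    intro a x
    show (if cls C a x = u then (1 : ℤ) else if cls C a x = -u then -1 else 0) = 0 ∨
      ((if cls C a x = u then (1 : ℤ) else if cls C a x = -u then -1 else 0) = 1 ∧ _) ∨
      ((if cls C a x = u then (1 : ℤ) else if cls C a x = -u then -1 else 0) = -1 ∧ _)
    by_cases e1 : cls C a x = u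
    · rw [if_pos e1]; exact Or.inr (Or.inl ⟨rfl, e1⟩)
    · by_cases e2 : cls C a x = -u
      · rw [if_neg e1, if_pos e2]; exact Or.inr (Or.inr ⟨rfl, e2⟩)
      · rw [if_neg e1, if_neg e2]; exact Or.inl rfl
  have hs' : ∀ a x, (cls C a x = u ∨ cls C a x = -u) → s a x ≠ 0 := by
    intro a x h h3
    have h3' : (if cls C a x = u then (1 : ℤ) else if cls C a x = -u then -1 else 0) = 0 := h3
    rcases h with h | h
    · rw [if_pos h] at h3'
      exact one_ne_zero h3'
    · by_cases e1 : cls C a x = u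
      · rw [if_pos e1] at h3'
        exact one_ne_zero h3'
      · rw [if_neg e1, if_pos h] at h3'
        exact absurd h3' (by norm_num)
  have hs0 : ∀ a x, s a x ≠ 0 → cls C a x = u ∨ cls C a x = -u := by
    intro a x h
    rcases hs a x with h3 | ⟨_, h3⟩ | ⟨_, h3⟩
    · exact absurd h3 h
    · exact Or.inl h3
    · exact Or.inr h3
  have huniq : ∀ a x y, s a x ≠ 0 → s a y ≠ 0 → y = x := by
    intro a x y hx hy
    refine cls_unique C h0 h1 h2 hG a x y ?_ ?_
    · rcases hs0 a x hx with h | h <;> rcases hs0 a y hy with h' | h' <;> rw [h, h']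
      · exact Or.inl rfl
      · exact Or.inr rfl
      · exact Or.inr (neg_neg u).symm
      · exact Or.inl rfl
    · rcases hs0 a x hx with h | h
      · rw [h]; exact hu0
      · rw [h]; exact neg_ne_zero.2 hu0
  -- the cycle
  let v : Fin (C.rank 3) → MonoidAlgebra ℤ G := fun a =>
    if h : ∃ x, s a x ≠ 0 then MonoidAlgebra.single (h.choose)⁻¹ (s a h.choose) else 0
  have hv : v ᵥ* C.d 2 = 0 := by
    ext b h
    have key : ∑ c ∈ Finset.univ.sigma (fun a : Fin (C.rank 3) => (C.d 2 a b).coeff.support),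
        (C.d 2 c.1 b).coeff c.2 * s c.1 (c.2 * h⁻¹) = 0 := by
      refine comb _ _ _ (fun c => cls C c.1 (c.2 * h⁻¹)) u hu (fun c => hs _ _) (fun c => hs' _ _)
        ?_ ?_
      · rw [Finset.sum_sigma]
        exact hdeg b
      · rw [Finset.sum_sigma]
        exact relation C b h⁻¹
    rw [Finset.sum_sigma] at key
    show ((∑ a, v a * C.d 2 a b : MonoidAlgebra ℤ G)).coeff h = 0
    rw [MonoidAlgebra.coeff_sum, Finsupp.finsetSum_apply, ← key]
    refine Finset.sum_congr rfl fun a _ => ?_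
    by_cases hx : ∃ x, s a x ≠ 0
    · have e1 : v a = MonoidAlgebra.single (hx.choose)⁻¹ (s a hx.choose) := dif_pos hx
      set x := hx.choose with hxd
      have hxs : s a x ≠ 0 := hx.choose_spec
      rw [e1, MonoidAlgebra.coeff_single_mul_apply, inv_inv]
      have e2 : ∀ y, s a (y * h⁻¹) ≠ 0 → y = x * h := by
        intro y hy
        have := huniq a x _ hxs hy
        rw [← this, inv_mul_cancel_right]
      by_cases hm : x * h ∈ (C.d 2 a b).coeff.support
      · rw [Finset.sum_eq_single_of_mem _ hm]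
        · rw [mul_inv_cancel_right, mul_comm]
        · intro y _ hy
          by_contra hne
          exact hy (e2 y (right_ne_zero_of_mul hne))
      · have e3 : (C.d 2 a b).coeff (x * h) = 0 := Finsupp.notMem_support_iff.1 hm
        rw [e3, mul_zero]
        symm
        refine Finset.sum_eq_zero fun y hy => ?_
        by_contra hne
        have := e2 y (right_ne_zero_of_mul hne)
        exact hm (this ▸ hy)
    · have e1 : v a = 0 := dif_neg hx
      rw [e1, zero_mul]
      symm
      refine Finset.sum_eq_zero fun y _ => ?_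
      have : s a (y * h⁻¹) = 0 := by
        by_contra hne
        exact hx ⟨_, hne⟩
      rw [this, mul_zero]
  obtain ⟨w, hw⟩ := (C.exact_succ 2 v).1 hv
  have hv0 : v = 0 := by
    rw [← hw]
    have : w = 0 := by
      ext1 j
      exact Fin.elim0 (Fin.cast hC j)
    rw [this, Matrix.zero_vecMul]
  have hx : ∃ x, s a0 x ≠ 0 := ⟨1, hs' a0 1 (Or.inl rfl)⟩
  have e1 : v a0 = MonoidAlgebra.single (hx.choose)⁻¹ (s a0 hx.choose) := dif_pos hx
  rw [hv0] at e1
  exact hx.choose_spec (MonoidAlgebra.single_eq_zero.1 e1.symm)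

/-- **Three-dimensional pseudomanifolds** -/
theorem pseudo_false (hC : C.rank 4 = 0)
    (hdeg : ∀ b, ∑ a, ∑ y ∈ (C.d 2 a b).coeff.support, ((C.d 2 a b).coeff y).natAbs ≤ 2) :
    False := by
  refine dim_three C h0 h1 h2 2 two_ne_zero fun a => ?_
  have h3 : cellE C a 1 + cellE C a 1 ∈ bd3 C := by
    rw [← QuotientAddGroup.eq_zero_iff, QuotientAddGroup.mk_add]
    exact two_cls C h0 h1 h2 hC hdeg a
  obtain ⟨b, hb⟩ := (mem_bd3 C _).1 h3
  refine ⟨b, ?_⟩
  rw [hb, cellE, ← Pi.single_add, ← MonoidAlgebra.single_add, one_add_one_eq_two]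

end Van

end

end Z9f173d
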